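import Pool.Agent.Helper10.RS.Goals

/-!
# Project RS, packet SMO: few primes `r ≤ n` have `r - 1` smooth
-/

open Finset Real Filter
open Pool.Agent.Helper10.RS

namespace Pool.Agent.Helper46.RS

theorem exp_eight_le : Real.exp 8 ≤ 2998 := by
  have h : Real.exp 8 = Real.exp 1 ^ (8 : ℕ) := by
    rw [← Real.exp_nat_mul]; norm_num
  rw [h]
  have h1 : Real.exp 1 ≤ 2.7183 := by
    have := Real.exp_one_lt_d9
    linarith
  calc Real.exp 1 ^ (8 : ℕ) ≤ (2.7183 : ℝ) ^ (8 : ℕ) :=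
        pow_le_pow_left₀ (Real.exp_pos 1).le h1 8
    _ ≤ 2998 := by norm_num

theorem smo_key (n l : ℕ) (hn : 1 ≤ n) (h1 : Real.log n / 8 ≤ l) (h2 : 3000 ≤ l) :
    n ≤ (l - 2) ^ l := by
  have hc : ((l - 2 : ℕ) : ℝ) = (l : ℝ) - 2 := by
    rw [Nat.cast_sub (by omega)]; norm_num
  have h3 : Real.exp 8 ≤ ((l - 2 : ℕ) : ℝ) := by
    rw [hc]
    have : (3000 : ℝ) ≤ (l : ℝ) := by exact_mod_cast h2
    have := exp_eight_le
    linarith
  have hn0 : (0 : ℝ) < n := by exact_mod_cast hn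
  have h4 : (n : ℝ) ≤ ((l - 2 : ℕ) : ℝ) ^ l := by
    calc (n : ℝ) = Real.exp (Real.log n) := (Real.exp_log hn0).symm
      _ ≤ Real.exp ((l : ℝ) * 8) := Real.exp_le_exp.mpr (by linarith)
      _ = Real.exp 8 ^ l := by rw [Real.exp_nat_mul]
      _ ≤ ((l - 2 : ℕ) : ℝ) ^ l := pow_le_pow_left₀ (Real.exp_pos 8).le h3 l
  exact_mod_cast h4

theorem smo_card (n L : ℕ) (hn : 1 ≤ n) (h1 : Real.log n / 8 ≤ L) (h2 : 3000 ≤ L) :
    {r : ℕ | r ≤ n ∧ r.Prime ∧ ∀ l : ℕ, l.Prime → l ∣ r - 1 → (l - 2) ^ l < n}.ncard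
      ≤ 2 ^ L * Nat.sqrt n := by
  have hsub : ∀ r ∈ {r : ℕ | r ≤ n ∧ r.Prime ∧
      ∀ l : ℕ, l.Prime → l ∣ r - 1 → (l - 2) ^ l < n},
      (fun r => r - 1) r ∈ ((Nat.smoothNumbersUpTo n L : Finset ℕ) : Set ℕ) := by
    rintro r ⟨hr, hp, hl⟩
    simp only [mem_coe, Nat.mem_smoothNumbersUpTo]
    refine ⟨by omega, ?_⟩
    rw [Nat.mem_smoothNumbers']
    intro p hp' hd
    by_contra hc
    have hLp : L ≤ p := not_lt.mp hc
    have h3 : Real.log n / 8 ≤ p := h1.trans (by exact_mod_cast hLp)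
    have h4 := smo_key n p hn h3 (h2.trans hLp)
    have h5 := hl p hp' hd
    omega
  have hinj : Set.InjOn (fun r : ℕ => r - 1) {r : ℕ | r ≤ n ∧ r.Prime ∧
      ∀ l : ℕ, l.Prime → l ∣ r - 1 → (l - 2) ^ l < n} := by
    rintro a ⟨_, ha, _⟩ b ⟨_, hb, _⟩ hab
    have := ha.two_le
    have := hb.two_le
    simp only at hab
    omega
  calc _ ≤ (((Nat.smoothNumbersUpTo n L : Finset ℕ) : Set ℕ)).ncard :=
        Set.ncard_le_ncard_of_injOn _ hsub hinj (Finset.finite_toSet _)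
    _ = (Nat.smoothNumbersUpTo n L).card := Set.ncard_coe_finset _
    _ ≤ 2 ^ L.primesBelow.card * Nat.sqrt n := Nat.smoothNumbersUpTo_card_le n L
    _ ≤ 2 ^ L * Nat.sqrt n := by
        refine Nat.mul_le_mul_right _ (Nat.pow_le_pow_right (by norm_num) ?_)
        calc L.primesBelow.card ≤ (Finset.range L).card := Finset.card_filter_le _ _
          _ = L := Finset.card_range L

theorem p_smo : SMO := by
  have e1 : ∀ᶠ x : ℝ in atTop, 2 * Real.log x + 20 ≤ x ^ ((3 : ℝ) / 5) := by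
    have h1 := (isLittleO_log_rpow_atTop (show (0 : ℝ) < 3 / 5 by norm_num)).def
      (show (0 : ℝ) < 1 / 4 by norm_num)
    have h2 := (tendsto_rpow_atTop (show (0 : ℝ) < 3 / 5 by norm_num)).eventually_ge_atTop 40
    filter_upwards [h1, h2, eventually_ge_atTop (1 : ℝ)] with x hx1 hx2 hx3
    have hp : 0 ≤ x ^ ((3 : ℝ) / 5) := by positivity
    rw [Real.norm_of_nonneg (Real.log_nonneg hx3), Real.norm_of_nonneg hp] at hx1
    linarith
  have e2 : ∀ᶠ x : ℝ in atTop, 3 * x ^ ((3 : ℝ) / 5) ≤ x ^ ((2 : ℝ) / 3) := by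
    have h2 := (tendsto_rpow_atTop (show (0 : ℝ) < 1 / 15 by norm_num)).eventually_ge_atTop 3
    filter_upwards [h2, eventually_ge_atTop (1 : ℝ)] with x hx2 hx3
    have hx0 : 0 < x := by linarith
    have : x ^ ((2 : ℝ) / 3) = x ^ ((1 : ℝ) / 15) * x ^ ((3 : ℝ) / 5) := by
      rw [← Real.rpow_add hx0]; norm_num
    rw [this]
    exact mul_le_mul_of_nonneg_right hx2 (by positivity)
  have e3 : ∀ᶠ x : ℝ in atTop, 24000 ≤ Real.log x :=
    Real.tendsto_log_atTop.eventually_ge_atTop 24000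
  have e4 := tendsto_natCast_atTop_atTop (R := ℝ) |>.eventually
    (e1.and (e2.and (e3.and (eventually_ge_atTop (1 : ℝ)))))
  obtain ⟨n₀, hn₀⟩ := eventually_atTop.mp e4
  refine ⟨n₀, fun n hn => ?_⟩
  obtain ⟨h1, h2, h3, h4⟩ := hn₀ n hn
  set L : ℕ := ⌈Real.log n / 8⌉₊ with hL
  have hL1 : Real.log n / 8 ≤ L := Nat.le_ceil _
  have hL2 : (L : ℝ) ≤ Real.log n / 8 + 1 := (Nat.ceil_lt_add_one (by linarith)).le
  have hL3 : 3000 ≤ L := by
    have : (3000 : ℝ) ≤ L := by linarith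
    exact_mod_cast this
  have hn1 : 1 ≤ n := by exact_mod_cast h4
  have hn0 : (0 : ℝ) < n := by linarith
  have hc := smo_card n L hn1 hL1 hL3
  have hc' : ((({r : ℕ | r ≤ n ∧ r.Prime ∧ ∀ l : ℕ, l.Prime → l ∣ r - 1 → (l - 2) ^ l < n}.ncard
      : ℕ) : ℝ)) ≤ 2 ^ L * (Nat.sqrt n : ℝ) := by exact_mod_cast hc
  have h5 : (2 : ℝ) ^ L ≤ 2 * (n : ℝ) ^ ((1 : ℝ) / 10) := by
    calc (2 : ℝ) ^ L = (2 : ℝ) ^ (L : ℝ) := (Real.rpow_natCast _ _).symm
      _ ≤ (2 : ℝ) ^ (Real.log n / 8 + 1) := Real.rpow_le_rpow_of_exponent_le (by norm_num) hL2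
      _ = 2 * (2 : ℝ) ^ (Real.log n / 8) := by
          rw [Real.rpow_add (by norm_num), Real.rpow_one]; ring
      _ ≤ 2 * (n : ℝ) ^ ((1 : ℝ) / 10) := by
          refine mul_le_mul_of_nonneg_left ?_ (by norm_num)
          rw [Real.rpow_def_of_pos (by norm_num), Real.rpow_def_of_pos hn0]
          refine Real.exp_le_exp.mpr ?_
          have := Real.log_two_lt_d9
          nlinarith
  have h6 : (Nat.sqrt n : ℝ) ≤ (n : ℝ) ^ ((1 : ℝ) / 2) := by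
    rw [← Real.sqrt_eq_rpow]
    exact Real.nat_sqrt_le_real_sqrt
  have h7 : (2 : ℝ) ^ L * (Nat.sqrt n : ℝ) ≤ 2 * (n : ℝ) ^ ((3 : ℝ) / 5) := by
    calc (2 : ℝ) ^ L * (Nat.sqrt n : ℝ)
        ≤ (2 * (n : ℝ) ^ ((1 : ℝ) / 10)) * (n : ℝ) ^ ((1 : ℝ) / 2) :=
          mul_le_mul h5 h6 (by positivity) (by positivity)
      _ = 2 * (n : ℝ) ^ ((3 : ℝ) / 5) := by
          rw [mul_assoc, ← Real.rpow_add hn0]; norm_num
  linarith

end Pool.Agent.Helper46.RS
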