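import Pool.Agent.Helper38.RS.Goals3

/-!
# Primes which are not completely split (project RS, MP_fc6b1e_nt)
-/

set_option autoImplicit false

namespace Pool.Agent.Helper46.RS

open NumberField Polynomial Module IsDedekindDomain Pool.Agent.Helper38.RS Filter Topology
open scoped Pointwise

section val

variable {K M : Type} [Field K] [NumberField K] [Field M] [NumberField M] [Algebra K M]

/-- an automorphism which fixes a prime ideal does not increase its valuation -/
theorem intVal_smul_le (w : HeightOneSpectrum (𝓞 M)) (g : M ≃ₐ[K] M)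
    (hg : g • w.asIdeal = w.asIdeal) (x : 𝓞 M) (hx : x ≠ 0) :
    w.intValuation (g • x) ≤ w.intValuation x := by
  rw [w.intValuation_if_neg hx, HeightOneSpectrum.intValuation_le_pow_iff_mem]
  have h1 : x ∈ w.asIdeal ^ ((Associates.mk w.asIdeal).count
      (Associates.mk (Ideal.span {x})).factors) := by
    rw [← HeightOneSpectrum.intValuation_le_pow_iff_mem, w.intValuation_if_neg hx]
  set n := (Associates.mk w.asIdeal).count (Associates.mk (Ideal.span {x})).factors
  have h2 : g • (w.asIdeal ^ n) = w.asIdeal ^ n := by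
    rw [Ideal.pointwise_smul_def, Ideal.map_pow, ← Ideal.pointwise_smul_def, hg]
  have h3 : g • x ∈ g • (w.asIdeal ^ n) := Ideal.smul_mem_pointwise_smul_iff.2 h1
  rwa [h2] at h3

theorem intVal_smul (w : HeightOneSpectrum (𝓞 M)) (g : M ≃ₐ[K] M)
    (hg : g • w.asIdeal = w.asIdeal) (x : 𝓞 M) :
    w.intValuation (g • x) = w.intValuation x := by
  rcases eq_or_ne x 0 with rfl | hx
  · rw [smul_zero]
  · apply le_antisymm (intVal_smul_le w g hg x hx)
    have hg' : g⁻¹ • w.asIdeal = w.asIdeal := by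
      rw [inv_smul_eq_iff, hg]
    have h1 := intVal_smul_le w g⁻¹ hg' (g • x) (by
      intro h
      apply hx
      rw [← inv_smul_smul g x, h, smul_zero])
    rwa [inv_smul_smul] at h1

theorem val_apply (w : HeightOneSpectrum (𝓞 M)) (g : M ≃ₐ[K] M)
    (hg : g • w.asIdeal = w.asIdeal) (y : M) :
    w.valuation M (g y) = w.valuation M y := by
  obtain ⟨a, b, hb, rfl⟩ := IsFractionRing.div_surjective (A := 𝓞 M) y
  rw [map_div₀, map_div₀, map_div₀]
  have h1 : ∀ x : 𝓞 M, w.valuation M (g (algebraMap (𝓞 M) M x)) =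
      w.valuation M (algebraMap (𝓞 M) M x) := by
    intro x
    have h2 : g (algebraMap (𝓞 M) M x) = algebraMap (𝓞 M) M (g • x) := rfl
    rw [h2, HeightOneSpectrum.valuation_of_algebraMap, HeightOneSpectrum.valuation_of_algebraMap,
      intVal_smul w g hg]
  rw [h1, h1]

end val

section split

variable {K M : Type} [Field K] [NumberField K] [Field M] [NumberField M] [Algebra K M]
  [IsGalois K M]

/-- over a prime below a prime with trivial decomposition group there are `[M : K]` primes, all of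
the same norm -/
theorem split (r : HeightOneSpectrum (𝓞 K)) (w : HeightOneSpectrum (𝓞 M))
    (hw : w.asIdeal.LiesOver r.asIdeal) (hfree : FreeP K w) :
    (r.asIdeal.primesOver (𝓞 M)).ncard = finrank K M ∧
    ∀ I ∈ r.asIdeal.primesOver (𝓞 M), Ideal.absNorm I = Ideal.absNorm r.asIdeal := by
  have := r.isPrime
  have := w.isPrime
  have hcard : Nat.card (M ≃ₐ[K] M) = finrank K M := IsGaloisGroup.card_eq_finrank _ K M
  have hfund := Ideal.ncard_primesOver_mul_ramificationIdxIn_mul_inertiaDegIn r.asIdeal (𝓞 M)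
    (M ≃ₐ[K] M)
  rw [hcard] at hfund
  have hmpos : 0 < finrank K M := finrank_pos
  -- the orbit map is injective
  have hfin : (r.asIdeal.primesOver (𝓞 M)).Finite := by
    apply Set.finite_of_ncard_ne_zero
    intro h0
    rw [h0, zero_mul] at hfund
    omega
  have hle : finrank K M ≤ (r.asIdeal.primesOver (𝓞 M)).ncard := by
    rw [← hcard, ← Set.ncard_univ]
    apply Set.ncard_le_ncard_of_injOn (fun g : M ≃ₐ[K] M => g • w.asIdeal)
    · intro g _
      exact ⟨inferInstance, inferInstance⟩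
    · intro g _ h _ hgh
      have h1 : (h⁻¹ * g) • w.asIdeal = w.asIdeal := by
        rw [mul_smul, inv_smul_eq_iff]
        exact hgh
      have h2 := hfree (h⁻¹ * g) (val_apply w _ h1)
      rw [inv_mul_eq_one] at h2
      exact h2.symm
  have hef : Ideal.ramificationIdxIn r.asIdeal (𝓞 M) * Ideal.inertiaDegIn r.asIdeal (𝓞 M) = 1 := by
    set a := (r.asIdeal.primesOver (𝓞 M)).ncard
    set b := Ideal.ramificationIdxIn r.asIdeal (𝓞 M) * Ideal.inertiaDegIn r.asIdeal (𝓞 M)
    have hb0 : b ≠ 0 := by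
      intro h0
      rw [h0, mul_zero] at hfund
      omega
    by_contra hb1
    have hb2 : 2 ≤ b := by omega
    have : a * 2 ≤ a * b := Nat.mul_le_mul_left a hb2
    omega
  have hf1 : Ideal.inertiaDegIn r.asIdeal (𝓞 M) = 1 := Nat.eq_one_of_mul_eq_one_left hef
  refine ⟨?_, ?_⟩
  · rw [hef, mul_one] at hfund
    exact hfund
  · intro I hI
    have := hI.1
    have := hI.2
    rw [← Ideal.absNorm_pow_inertiaDeg r.asIdeal I,
      ← Ideal.inertiaDegIn_eq_inertiaDeg r.asIdeal I (M ≃ₐ[K] M), hf1, pow_one]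

end split

/-- the terms of the prime sums -/
noncomputable def tm {F : Type} [Field F] [NumberField F] (s : ℝ)
    (v : HeightOneSpectrum (𝓞 F)) : ℝ := (Ideal.absNorm v.asIdeal : ℝ) ^ (-s)

theorem pz_univ {F : Type} [Field F] [NumberField F] (s : ℝ) :
    pz (F := F) Set.univ s = ∑' v : HeightOneSpectrum (𝓞 F), tm s v :=
  tsum_univ (fun v : HeightOneSpectrum (𝓞 F) => tm s v)

theorem tm_nonneg {F : Type} [Field F] [NumberField F] (s : ℝ)
    (v : HeightOneSpectrum (𝓞 F)) : 0 ≤ tm s v := Real.rpow_nonneg (Nat.cast_nonneg _) _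

theorem one_lt_absNorm {F : Type} [Field F] [NumberField F] (v : HeightOneSpectrum (𝓞 F)) :
    1 < Ideal.absNorm v.asIdeal := by
  have h0 : Ideal.absNorm v.asIdeal ≠ 0 := by
    rw [Ne, Ideal.absNorm_eq_zero_iff]
    exact v.ne_bot
  have h1 : Ideal.absNorm v.asIdeal ≠ 1 := by
    rw [Ne, Ideal.absNorm_eq_one_iff]
    exact v.isPrime.ne_top
  omega

theorem tm_le_one {F : Type} [Field F] [NumberField F] (s : ℝ) (hs : 0 ≤ s)
    (v : HeightOneSpectrum (𝓞 F)) : tm s v ≤ 1 := by
  apply Real.rpow_le_one_of_one_le_of_nonpos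
  · exact_mod_cast (one_lt_absNorm v).le
  · linarith

/-- the basic inequality on finite sets of primes -/
theorem fin_le {K M : Type} [Field K] [NumberField K] [Field M] [NumberField M] [Algebra K M]
    [IsGalois K M] (s : ℝ) (hsM : Summable fun v : HeightOneSpectrum (𝓞 M) => tm s v)
    (F : Finset (HeightOneSpectrum (𝓞 K)))
    (hF : ∀ r ∈ F, ∀ w : HeightOneSpectrum (𝓞 M), w.asIdeal.LiesOver r.asIdeal → FreeP K w) :
    (finrank K M : ℝ) * ∑ r ∈ F, tm s r ≤ ∑' w : HeightOneSpectrum (𝓞 M), tm s w := by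
  classical
  -- the primes above `r`
  have hex : ∀ r ∈ F, ∃ W : Finset (HeightOneSpectrum (𝓞 M)), W.card = finrank K M ∧
      (∀ w ∈ W, w.asIdeal.LiesOver r.asIdeal) ∧ ∀ w ∈ W, tm s w = tm s r := by
    intro r hr
    have := r.isPrime
    -- a prime above r
    obtain ⟨I, hI1, hI2⟩ : ∃ I : Ideal (𝓞 M), I.IsPrime ∧ I.LiesOver r.asIdeal := by
      obtain ⟨P⟩ := (inferInstance : Nonempty (Ideal.primesOver r.asIdeal (𝓞 M)))
      exact ⟨P.1, P.2.1, P.2.2⟩
    have hne : ∀ J : Ideal (𝓞 M), J.LiesOver r.asIdeal → J ≠ ⊥ := by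
      intro J hJ h0
      apply r.ne_bot
      have := hJ
      rw [J.over_def r.asIdeal, h0]
      exact Ideal.under_bot _ _
    let w : HeightOneSpectrum (𝓞 M) := ⟨I, hI1, hne I hI2⟩
    have hsp := split r w hI2 (hF r hr w hI2)
    have hfin : (r.asIdeal.primesOver (𝓞 M)).Finite := by
      apply Set.finite_of_ncard_ne_zero
      rw [hsp.1]
      exact finrank_pos.ne'
    let f : Ideal (𝓞 M) → HeightOneSpectrum (𝓞 M) := fun J =>
      if h : J.IsPrime ∧ J ≠ ⊥ then ⟨J, h.1, h.2⟩ else w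
    have hf : ∀ J ∈ r.asIdeal.primesOver (𝓞 M), (f J).asIdeal = J := by
      intro J hJ
      have h : J.IsPrime ∧ J ≠ ⊥ := ⟨hJ.1, hne J hJ.2⟩
      change (if h : J.IsPrime ∧ J ≠ ⊥ then (⟨J, h.1, h.2⟩ : HeightOneSpectrum (𝓞 M))
        else w).asIdeal = J
      rw [dif_pos h]
    refine ⟨hfin.toFinset.image f, ?_, ?_, ?_⟩
    · rw [Finset.card_image_of_injOn, ← Set.ncard_eq_toFinset_card _ hfin, hsp.1]
      intro J hJ J' hJ' h
      rw [Set.Finite.coe_toFinset] at hJ hJ'
      rw [← hf J hJ, ← hf J' hJ', h]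
    · intro v hv
      obtain ⟨J, hJ, rfl⟩ := Finset.mem_image.1 hv
      rw [Set.Finite.mem_toFinset] at hJ
      rw [hf J hJ]
      exact hJ.2
    · intro v hv
      obtain ⟨J, hJ, rfl⟩ := Finset.mem_image.1 hv
      rw [Set.Finite.mem_toFinset] at hJ
      unfold tm
      rw [hf J hJ, hsp.2 J hJ]
  choose! W hW1 hW2 hW3 using hex
  have hdisj : Set.PairwiseDisjoint (F : Set (HeightOneSpectrum (𝓞 K))) W := by
    intro r hr r' hr' hrr'
    rw [Function.onFun, Finset.disjoint_left]
    intro w hw hw'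
    apply hrr'
    have h1 := (hW2 r hr w hw).over
    have h2 := (hW2 r' hr' w hw').over
    ext1
    rw [h1, h2]
  calc (finrank K M : ℝ) * ∑ r ∈ F, tm s r = ∑ r ∈ F, ∑ w ∈ W r, tm s w := by
        rw [Finset.mul_sum]
        refine Finset.sum_congr rfl fun r hr => ?_
        rw [Finset.sum_congr rfl (fun w hw => hW3 r hr w hw), Finset.sum_const, hW1 r hr,
          nsmul_eq_mul]
    _ = ∑ w ∈ F.biUnion W, tm s w := (Finset.sum_biUnion hdisj).symm
    _ ≤ ∑' w : HeightOneSpectrum (𝓞 M), tm s w :=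
        hsM.sum_le_tsum _ (fun w _ => tm_nonneg s w)

/-- S_NFI -/
theorem s_nfi (h1 : S_PSM) : S_NFI := by
  classical
  intro K M _ _ _ _ _ _ hrank Z hZ
  by_contra hcon
  push Not at hcon
  obtain ⟨C1, hC1⟩ := h1 K
  obtain ⟨C2, hC2⟩ := h1 M
  -- the primes below Z
  have hbelow : ∀ w : HeightOneSpectrum (𝓞 M), ∃ r : HeightOneSpectrum (𝓞 K),
      w.asIdeal.LiesOver r.asIdeal := by
    intro w
    have := w.isPrime
    refine ⟨⟨w.asIdeal.under (𝓞 K), inferInstance, ?_⟩, ⟨rfl⟩⟩
    exact Ideal.under_ne_bot _ w.ne_bot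
  choose bel hbel using hbelow
  let Z' : Finset (HeightOneSpectrum (𝓞 K)) := hZ.toFinset.image bel
  have hZ' : ∀ r ∉ Z', ∀ w : HeightOneSpectrum (𝓞 M), w.asIdeal.LiesOver r.asIdeal →
      FreeP K w := by
    intro r hr w hw
    apply hcon w
    intro hwZ
    apply hr
    have h2 : bel w = r := by
      ext1
      rw [(hbel w).over, hw.over]
    rw [← h2]
    exact Finset.mem_image_of_mem bel (hZ.mem_toFinset.2 hwZ)
  set m := finrank K M with hm
  have hm2 : (2 : ℝ) ≤ m := by exact_mod_cast hrank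
  -- choose s close to 1
  have hlim : Tendsto (fun s : ℝ => Real.log (1 / (s - 1))) (𝓝[>] 1) atTop := by
    have h2 : Tendsto (fun s : ℝ => 1 / (s - 1)) (𝓝[>] 1) atTop := by
      have h3 : Tendsto (fun s : ℝ => s - 1) (𝓝[>] 1) (𝓝[>] 0) := by
        apply tendsto_nhdsWithin_of_tendsto_nhds_of_eventually_within
        · have : Tendsto (fun s : ℝ => s - 1) (𝓝 1) (𝓝 (1 - 1)) :=
            (continuous_id.sub continuous_const).tendsto 1
          rw [sub_self] at this
          exact this.mono_left nhdsWithin_le_nhds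
        · filter_upwards [self_mem_nhdsWithin] with s hs
          exact Set.mem_Ioi.2 (sub_pos.2 (Set.mem_Ioi.1 hs))
      simp_rw [one_div]
      exact tendsto_inv_nhdsGT_zero.comp h3
    exact Real.tendsto_log_atTop.comp h2
  have hev := (hlim.eventually_gt_atTop (|C1| + |C2| + m * |C1| + m * Z'.card + |C2| + 1))
  have hev2 : ∀ᶠ s : ℝ in 𝓝[>] 1, s ≤ 2 := by
    have : ∀ᶠ s : ℝ in 𝓝 1, s < 2 := eventually_lt_nhds (by norm_num)
    exact (this.filter_mono nhdsWithin_le_nhds).mono fun s hs => hs.le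
  obtain ⟨s, hs, hs2, hs1⟩ := (hev.and (hev2.and self_mem_nhdsWithin)).exists
  have hs1 : 1 < s := hs1
  set L := Real.log (1 / (s - 1)) with hL
  have e1 := hC1 s hs1 hs2
  have e2 := hC2 s hs1 hs2
  rw [pz_univ, abs_le] at e1 e2
  rw [← hL] at e1 e2
  have c1 := le_abs_self C1
  have c2 := le_abs_self C2
  have mc1 : 0 ≤ (m : ℝ) * |C1| := by positivity
  have mz : 0 ≤ (m : ℝ) * Z'.card := by positivity
  have a1 := abs_nonneg C1
  have a2 := abs_nonneg C2
  have hsK : Summable fun v : HeightOneSpectrum (𝓞 K) => tm s v := by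
    by_contra hns
    rw [tsum_eq_zero_of_not_summable hns] at e1
    linarith [e1.1]
  have hsM : Summable fun v : HeightOneSpectrum (𝓞 M) => tm s v := by
    by_contra hns
    rw [tsum_eq_zero_of_not_summable hns] at e2
    linarith [e2.1]
  set TM := ∑' v : HeightOneSpectrum (𝓞 M), tm s v with hTM
  have hle : ∑' v : HeightOneSpectrum (𝓞 K), tm s v ≤ Z'.card + TM / m := by
    apply hsK.tsum_le_of_sum_le
    intro F
    have h3 := fin_le s hsM (F \ Z') (by
      intro r hr w hw
      exact hZ' r (Finset.mem_sdiff.1 hr).2 w hw)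
    rw [← hm, ← hTM] at h3
    have h4 : ∑ r ∈ F \ Z', tm s r ≤ TM / m := by
      rw [le_div_iff₀ (by linarith)]
      linarith
    have h5 : ∑ r ∈ F ∩ Z', tm s r ≤ Z'.card := by
      calc ∑ r ∈ F ∩ Z', tm s r ≤ ∑ r ∈ F ∩ Z', (1 : ℝ) :=
            Finset.sum_le_sum fun r _ => tm_le_one s (by linarith) r
        _ = ((F ∩ Z').card : ℝ) := by simp
        _ ≤ Z'.card := by exact_mod_cast Finset.card_le_card Finset.inter_subset_right
    rw [← Finset.sum_inter_add_sum_sdiff F Z']
    linarith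
  -- contradiction
  have h6 : L - C1 ≤ Z'.card + TM / m := by linarith [e1.1]
  have h7 : TM ≤ L + C2 := by linarith [e2.2]
  have hmpos : (0 : ℝ) < m := by linarith
  have h8 : (m : ℝ) * (L - C1) ≤ m * Z'.card + TM := by
    have := mul_le_mul_of_nonneg_left h6 hmpos.le
    rw [mul_add, mul_div_cancel₀ _ hmpos.ne'] at this
    exact this
  have h9 : (m : ℝ) * C1 ≤ m * |C1| := mul_le_mul_of_nonneg_left c1 hmpos.le
  have hLpos : 0 < L := by linarith
  have h10 : 2 * L ≤ m * L := mul_le_mul_of_nonneg_right hm2 hLpos.le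
  nlinarith

end Pool.Agent.Helper46.RS
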