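import Pool.Agent.Helper38.RS.Goals4

/-!
# Valuations at primes with nontrivial decomposition group (project RS, MP_fc6b1e_nt)
-/

set_option autoImplicit false

namespace Pool.Agent.Helper46.RS

open NumberField Polynomial Module IsDedekindDomain Pool.Agent.Helper38.RS

/-- the shift operator on sequences -/
def shift : Module.End (ZMod 2) (ℕ → ZMod 2) where
  toFun f := fun i => f (i + 1)
  map_add' _ _ := rfl
  map_smul' _ _ := rfl

theorem shift_pow_apply (j : ℕ) (f : ℕ → ZMod 2) (i : ℕ) : (shift ^ j) f i = f (i + j) := by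
  induction j generalizing i with
  | zero => rfl
  | succ j ih =>
    rw [pow_succ', Module.End.mul_apply]
    change (shift ^ j) f (i + 1) = _
    rw [ih]
    congr 1
    omega

theorem aeval_shift_apply (P : (ZMod 2)[X]) (f : ℕ → ZMod 2) (i : ℕ) :
    (aeval shift P) f i = ∑ j ∈ P.support, f (i + j) := by
  rw [aeval_eq_sum_range' (n := P.natDegree + 1) (by omega)]
  rw [LinearMap.sum_apply, Finset.sum_apply]
  have h1 : ∀ j, ((P.coeff j • shift ^ j) f) i = P.coeff j * f (i + j) := by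
    intro j
    rw [LinearMap.smul_apply, Pi.smul_apply, shift_pow_apply, smul_eq_mul]
  simp_rw [h1]
  rw [← Finset.sum_subset (s₁ := P.support) (s₂ := Finset.range (P.natDegree + 1))]
  · refine Finset.sum_congr rfl fun j hj => ?_
    have hc : P.coeff j ≠ 0 := mem_support_iff.1 hj
    have h2 : ∀ a : ZMod 2, a ≠ 0 → a = 1 := by decide
    rw [h2 _ hc, one_mul]
  · exact supp_subset_range_natDegree_succ
  · intro j _ hj
    rw [notMem_support_iff.1 hj, zero_mul]

/-- a sequence killed by two coprime operators vanishes -/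
theorem seq_zero (P : (ZMod 2)[X]) (e : ℕ) (hc : IsCoprime P (X ^ e - 1)) (f : ℕ → ZMod 2)
    (h1 : ∀ i, ∑ j ∈ P.support, f (i + j) = 0) (h2 : ∀ i, f (i + e) = f i) (i : ℕ) :
    f i = 0 := by
  obtain ⟨a, b, hab⟩ := hc
  have hP : (aeval shift P) f = 0 := by
    funext i
    rw [aeval_shift_apply, h1]
    rfl
  have hE : (aeval shift (X ^ e - 1 : (ZMod 2)[X])) f = 0 := by
    funext i
    rw [map_sub, map_pow, aeval_X, map_one, LinearMap.sub_apply, Pi.sub_apply, shift_pow_apply,
      h2]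
    simp
  have h3 : (aeval shift (a * P + b * (X ^ e - 1))) f = 0 := by
    rw [map_add, map_mul, map_mul, LinearMap.add_apply, Module.End.mul_apply,
      Module.End.mul_apply, hP, hE, map_zero, map_zero, add_zero]
  rw [hab, map_one] at h3
  exact congrFun h3 i

section

variable {M : Type} [Field M] [NumberField M]

theorem ordv_mul (w : HeightOneSpectrum (𝓞 M)) (x y : M) (hx : x ≠ 0) (hy : y ≠ 0) :
    ordv w (x * y) = ordv w x + ordv w y := by
  unfold ordv
  rw [map_mul, WithZero.log_mul ((Valuation.ne_zero_iff _).2 hx) ((Valuation.ne_zero_iff _).2 hy)]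
  ring

theorem ordv_one (w : HeightOneSpectrum (𝓞 M)) : ordv w (1 : M) = 0 := by
  unfold ordv
  simp

theorem ordv_pow_two (w : HeightOneSpectrum (𝓞 M)) (x : M) (hx : x ≠ 0) :
    ordv w (x ^ 2) = 2 * ordv w x := by
  rw [pow_two, ordv_mul w x x hx hx]
  ring

theorem ordv_prod {ι : Type} (w : HeightOneSpectrum (𝓞 M)) (s : Finset ι) (f : ι → M)
    (hf : ∀ i ∈ s, f i ≠ 0) : ordv w (∏ i ∈ s, f i) = ∑ i ∈ s, ordv w (f i) := by
  classical
  induction s using Finset.induction_on with
  | empty => simp [ordv_one]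
  | insert a s ha ih =>
    rw [Finset.prod_insert ha, Finset.sum_insert ha, ordv_mul, ih]
    · intro i hi
      exact hf i (Finset.mem_insert_of_mem hi)
    · exact hf a (Finset.mem_insert_self _ _)
    · exact Finset.prod_ne_zero_iff.2 fun i hi => hf i (Finset.mem_insert_of_mem hi)

end

theorem pol_coe {K M : Type} [Field K] [Field M] [Algebra K M] (P : (ZMod 2)[X])
    (δ : M ≃ₐ[K] M) (x : Mˣ) :
    ((pol P δ x : Mˣ) : M) = ∏ j ∈ P.support, (δ ^ j) (x : M) := by
  unfold pol
  rw [MonoidHom.finset_prod_apply, Units.coe_prod]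
  rfl

/-- S_NFR -/
theorem s_nfr : S_NFR := by
  intro k _ _ K M _ _ _ _ _ _ m δ ζ Φ P hΦ hord hrank x hsq w hfree
  have hm1 : 1 < m := hΦ.one_lt
  -- the group is cyclic
  have hcard : Nat.card (M ≃ₐ[K] M) = m := by
    rw [IsGalois.card_aut_eq_finrank, hrank]
  have hgen : ∀ g : M ≃ₐ[K] M, ∃ j : ℕ, j < m ∧ δ ^ j = g := by
    intro g
    haveI : Finite (M ≃ₐ[K] M) := inferInstance
    have h1 : Subgroup.zpowers δ = ⊤ := by
      apply Subgroup.eq_top_of_card_eq
      rw [Nat.card_zpowers, hord, hcard]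
    have h2 : g ∈ Subgroup.zpowers δ := by
      rw [h1]
      trivial
    have h3 : g ∈ Submonoid.powers δ := by
      rwa [← mem_powers_iff_mem_zpowers] at h2
    obtain ⟨j, hj⟩ := h3
    refine ⟨j % m, Nat.mod_lt _ (by omega), ?_⟩
    rw [← hord, pow_mod_orderOf]
    exact hj
  unfold FreeP at hfree
  push Not at hfree
  obtain ⟨g, hg, hg1⟩ := hfree
  obtain ⟨j, hjm, rfl⟩ := hgen g
  have hj0 : j ≠ 0 := by
    rintro rfl
    exact hg1 (pow_zero δ)
  -- powers of `δ ^ j` preserve the valuation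
  have hpow : ∀ (t : ℕ) (y : M), w.valuation M (((δ ^ j) ^ t) y) = w.valuation M y := by
    intro t
    induction t with
    | zero =>
      intro y
      rw [pow_zero]
      rfl
    | succ t ih =>
      intro y
      rw [pow_succ', AlgEquiv.mul_apply, hg, ih]
  set e := Nat.gcd j m with he
  have he0 : 0 < e := Nat.gcd_pos_of_pos_left _ (Nat.pos_of_ne_zero hj0)
  have hem : e ∣ m := Nat.gcd_dvd_right _ _
  have hej : e ∣ j := Nat.gcd_dvd_left _ _
  have hlt : e < m := lt_of_le_of_lt (Nat.le_of_dvd (Nat.pos_of_ne_zero hj0) hej) hjm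
  have hde : ∃ t : ℕ, (δ ^ j) ^ t = δ ^ e := by
    have h1 : orderOf (δ ^ j) = orderOf (δ ^ e) := by
      have h0 : Nat.gcd m (Nat.gcd j m) = Nat.gcd j m :=
        Nat.gcd_eq_right (Nat.gcd_dvd_right j m)
      rw [orderOf_pow, orderOf_pow, hord, he, h0, Nat.gcd_comm m j]
    have h2 : Subgroup.zpowers (δ ^ j) = Subgroup.zpowers (δ ^ e) := by
      apply Subgroup.eq_of_le_of_card_ge
      · rw [Subgroup.zpowers_le]
        obtain ⟨q, hq⟩ := hej
        rw [hq, pow_mul]
        exact Subgroup.pow_mem _ (Subgroup.mem_zpowers _) _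
      · rw [Nat.card_zpowers, Nat.card_zpowers, h1]
    have h3 : δ ^ e ∈ Subgroup.zpowers (δ ^ j) := by
      rw [h2]
      exact Subgroup.mem_zpowers _
    rw [← mem_powers_iff_mem_zpowers] at h3
    obtain ⟨t, ht⟩ := h3
    exact ⟨t, ht⟩
  obtain ⟨t, ht⟩ := hde
  have hval : ∀ y : M, w.valuation M ((δ ^ e) y) = w.valuation M y := by
    intro y
    rw [← ht]
    exact hpow t y
  -- the sequence
  let f : ℕ → ZMod 2 := fun i => ((ordv w ((δ ^ i) (x : M)) : ℤ) : ZMod 2)
  have hne : ∀ i : ℕ, (δ ^ i) (x : M) ≠ 0 := fun i => by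
    rw [Ne, map_eq_zero_iff _ (δ ^ i).injective]
    exact x.ne_zero
  have h2 : ∀ i, f (i + e) = f i := by
    intro i
    change ((ordv w ((δ ^ (i + e)) (x : M)) : ℤ) : ZMod 2) = _
    have : ordv w ((δ ^ (i + e)) (x : M)) = ordv w ((δ ^ i) (x : M)) := by
      unfold ordv
      rw [add_comm, pow_add, AlgEquiv.mul_apply, hval]
    rw [this]
  have h1 : ∀ i, ∑ l ∈ P.support, f (i + l) = 0 := by
    intro i
    obtain ⟨y, hy⟩ := hsq
    have hy' : ∏ l ∈ P.support, (δ ^ l) (x : M) = (y : M) ^ 2 := by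
      rw [← pol_coe, hy]
      rfl
    have hyi : ∏ l ∈ P.support, (δ ^ (i + l)) (x : M) = ((δ ^ i) (y : M)) ^ 2 := by
      rw [← map_pow, ← hy', map_prod]
      refine Finset.prod_congr rfl fun l _ => ?_
      rw [pow_add, AlgEquiv.mul_apply]
    have h3 : ∑ l ∈ P.support, ordv w ((δ ^ (i + l)) (x : M)) = 2 * ordv w ((δ ^ i) (y : M)) := by
      rw [← ordv_prod w P.support _ (fun l _ => hne _), hyi, ordv_pow_two]
      rw [Ne, map_eq_zero_iff _ (δ ^ i).injective]
      exact y.ne_zero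
    have h4 : ((∑ l ∈ P.support, ordv w ((δ ^ (i + l)) (x : M)) : ℤ) : ZMod 2) = 0 := by
      rw [h3]
      push_cast
      have : (2 : ZMod 2) = 0 := by decide
      rw [this, zero_mul]
    rw [Int.cast_sum] at h4
    exact h4
  have h0 := seq_zero P e (hΦ.cop e he0 hlt hem) f h1 h2 0
  have h5 : ((ordv w (x : M) : ℤ) : ZMod 2) = 0 := by
    have : f 0 = ((ordv w (x : M) : ℤ) : ZMod 2) := by
      change ((ordv w ((δ ^ 0) (x : M)) : ℤ) : ZMod 2) = _
      rw [pow_zero]
      rfl
    rw [← this]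
    exact h0
  rw [ZMod.intCast_zmod_eq_zero_iff_dvd] at h5
  exact even_iff_two_dvd.2 (by exact_mod_cast h5)

end Pool.Agent.Helper46.RS
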